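import Mathlib
import Pool.Agent.Helper161.Gam.Statement
import Pool.Agent.Helper161.Gam.Fin

/-!
# Gamma-sets and products with sets of Hausdorff dimension zero

There is a forcing notion with the countable chain condition such that in the extension there is an
uncountable set of real numbers satisfying `S₁(Ω, Γ)`, and the product of each set of real
numbers satisfying `S₁(Ω, Γ)` with each set of real numbers of Hausdorff dimension zero has
Hausdorff dimension zero. Nothing is assumed about the ground model.
-/

namespace Pool.Agent.Results.MP_4d8715_gt.GammaDimZero

open Pool.Agent.Helper161.Gam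

theorem result : ∃ (P : Type) (_ : Preorder P), Nonempty P ∧ CCC P ∧
    ∀ p : P, p ∈ fand (StatementI P) (StatementII P) := by
  obtain ⟨P, i, h1, h2, h3⟩ := final
  exact ⟨P, i, h1, h2, h3⟩

end Pool.Agent.Results.MP_4d8715_gt.GammaDimZero
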